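import Pool.Agent.helper80.T1.SpecO
import Pool.Agent.helper49.MS.OV3
import Pool.Agent.helper97.RS.CV1

/-!
# MP_07c750, project T1, row t1:OAM: the effective OV3
-/

set_option autoImplicit false

open scoped MatrixGroups ContDiff Topology UpperHalfPlane ComplexConjugate
open UpperHalfPlane MeasureTheory Filter Set

namespace Pool.Agent.T1

open Pool.Agent.RS Pool.Agent.MS Pool.Agent.HV

noncomputable section

/-- the real part of the point -/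
def OAM_X (q : OV3_E) : ℝ := (OV1_A q / OV1_B q).re

/-- the logarithm of the imaginary part of the point -/
def OAM_Y (q : OV3_E) : ℝ := Real.log (OV1_A q / OV1_B q).im

/-- the weight -/
def OAM_P (q : OV3_E) : ℝ := OV3_N q ^ (-(1 / 2 : ℝ))

lemma OAM_AB : ContDiffOn ℝ ∞ (fun q : OV3_E => OV1_A q / OV1_B q) OV1_U := by
  have h2 : ContDiffOn ℝ ∞ (fun q => OV1_A q * (OV1_B q)⁻¹) OV1_U :=
    (OV1_As.contDiffOn).mul ((OV1_Bs.contDiffOn).inv OV1_Bne)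
  simpa only [div_eq_mul_inv] using h2

lemma OAM_Xs : ContDiffOn ℝ ∞ OAM_X OV1_U :=
  Complex.reCLM.contDiff.comp_contDiffOn OAM_AB

lemma OAM_Ys : ContDiffOn ℝ ∞ OAM_Y OV1_U := by
  have h1 : ContDiffOn ℝ ∞ (fun q : OV3_E => (OV1_A q / OV1_B q).im) OV1_U :=
    Complex.imCLM.contDiff.comp_contDiffOn OAM_AB
  exact ContDiffOn.log h1 fun q hq => (OV1_im q hq).ne'

lemma OAM_Ps : ContDiffOn ℝ ∞ OAM_P OV1_U :=
  ContDiffOn.rpow_const_of_ne OV3_Ns.contDiffOn fun q hq => (OV3_Npos q hq).ne'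

lemma OAM_am (β α : ℝ → ℝ) (k : SL(2, ℝ)) (x τ : ℝ) : amk (pc β α) k x τ =
    ((β (OAM_X (OV1_e k⁻¹, (x, τ))) * α (OAM_Y (OV1_e k⁻¹, (x, τ))) *
      OAM_P (OV1_e k⁻¹, (x, τ)) : ℝ) : ℂ) := by
  have h1 : ((k⁻¹ • pt x τ : ℍ) : ℂ) =
      OV1_A (OV1_e k⁻¹, (x, τ)) / OV1_B (OV1_e k⁻¹, (x, τ)) := by
    rw [OV1_coe, OV1_pt]
    rfl
  have h2 : (k⁻¹ • pt x τ).re = OAM_X (OV1_e k⁻¹, (x, τ)) := by
    unfold OAM_X
    rw [← h1]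
    rfl
  have h3 : Real.log (k⁻¹ • pt x τ).im = OAM_Y (OV1_e k⁻¹, (x, τ)) := by
    unfold OAM_Y
    rw [← h1]
    rfl
  unfold amk pc OAM_P
  rw [h2, h3, OV3_Dk]
  push_cast
  ring

lemma OAM_two : (2 : WithTop ℕ∞) ≤ ((⊤ : ℕ∞) : WithTop ℕ∞) := WithTop.coe_le_coe.2 (le_top : (2 : ℕ∞) ≤ ⊤)

lemma OAM_real (f : ℝ → ℝ) (hf : ContDiff ℝ 2 f) (j : ℕ) (hj : j ≤ 2) (x : ℝ) :
    ‖iteratedDeriv j (fun x => ((f x : ℝ) : ℂ)) x‖ = |iteratedDeriv j f x| := by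
  have h1 := Complex.ofRealLI.norm_iteratedFDeriv_comp_left (n := 2) (i := j) (f := f) (x := x)
    hf.contDiffAt (by exact_mod_cast hj)
  rw [norm_iteratedFDeriv_eq_norm_iteratedDeriv, norm_iteratedFDeriv_eq_norm_iteratedDeriv] at h1
  exact h1

theorem OAM_proof (hOCH : OCH_stmt) : OAM_stmt := by
  obtain ⟨M0, hM0, hOV0⟩ := OV3_proof (pc (fun _ => 0) (fun _ => 0))
    (CV1.2.2 (1 / 4) (fun _ => 0) (fun _ => 0) ⟨contDiff_const, fun x h => (h rfl).elim⟩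
      ⟨contDiff_const, fun x h => (h rfl).elim⟩).1
  obtain ⟨KK, hKK⟩ : ∃ KK : Set OV3_E, KK =
    ((Icc (-3) 3 ×ˢ (Icc (-3) 3 ×ˢ (Icc (-3) 3 ×ˢ Icc (-3) 3))) ×ˢ
      (Icc (-(1 / 4)) (1 / 4) ×ˢ Icc (-(1 / 4)) (1 / 4))) ∩
      {q | q.1.1 * q.1.2.2.2 - q.1.2.1 * q.1.2.2.1 = 1} := ⟨_, rfl⟩
  have hKc : IsCompact KK := by
    rw [hKK]
    refine IsCompact.inter_right ?_ ?_
    · exact (isCompact_Icc.prod (isCompact_Icc.prod (isCompact_Icc.prod isCompact_Icc))).prod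
        (isCompact_Icc.prod isCompact_Icc)
    · exact isClosed_eq (by fun_prop) continuous_const
  have hKU : KK ⊆ OV1_U := by
    intro q hq
    rw [hKK] at hq
    show 0 < (OV1_A q * conj (OV1_B q)).im
    rw [OV1_val, hq.2, one_mul]
    exact Real.exp_pos _
  obtain ⟨a1, ha1, ba1⟩ := OV3_bd OV1_U OV1_Uo KK hKc hKU ((0, (1, 0)) : OV3_E) 2 OAM_X OAM_Xs
  obtain ⟨a2, ha2, ba2⟩ := OV3_bd OV1_U OV1_Uo KK hKc hKU ((0, (1, 0)) : OV3_E) 2 OAM_Y OAM_Ys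
  obtain ⟨a3, ha3, ba3⟩ := OV3_bd OV1_U OV1_Uo KK hKc hKU ((0, (1, 0)) : OV3_E) 2 OAM_P OAM_Ps
  obtain ⟨b1, hb1, bb1⟩ := OV3_bd OV1_U OV1_Uo KK hKc hKU ((0, (0, 1)) : OV3_E) 2 OAM_X OAM_Xs
  obtain ⟨b2, hb2, bb2⟩ := OV3_bd OV1_U OV1_Uo KK hKc hKU ((0, (0, 1)) : OV3_E) 2 OAM_Y OAM_Ys
  obtain ⟨b3, hb3, bb3⟩ := OV3_bd OV1_U OV1_Uo KK hKc hKU ((0, (0, 1)) : OV3_E) 2 OAM_P OAM_Ps
  obtain ⟨Dd, hDd⟩ : ∃ Dd : ℝ, Dd = 1 + a1 + a2 + a3 + b1 + b2 + b3 := ⟨_, rfl⟩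
  have hD1 : 1 ≤ Dd := by rw [hDd]; linarith
  refine ⟨1 + 10 * Dd ^ 3 + M0, by nlinarith [pow_nonneg (by linarith : (0:ℝ) ≤ Dd) 3], ?_⟩
  intro β α M hM hβ hα k hk
  have hTB : TB (1 / 4) (pc β α) := (CV1.2.2 (1 / 4) α β hα.sb hβ.sb).1
  obtain ⟨M1, hM1, hOV1⟩ := OV3_proof (pc β α) hTB
  obtain ⟨h1, h2, h3, h4⟩ := hOV1 k hk
  obtain ⟨-, -, -, g4⟩ := hOV0 k hk
  refine ⟨h1, h2, h3, ?_⟩
  intro x τ hx hτ
  obtain ⟨h5, h6, -, -, -, h7, h8⟩ := h4 x τ hx hτ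
  obtain ⟨-, -, -, -, g5, -, -⟩ := g4 x τ hx hτ
  have hM2 : 1 ≤ M ^ 2 := one_le_pow₀ hM
  have hD3 : 0 ≤ 10 * Dd ^ 3 := by positivity
  have hKge : M0 ≤ (1 + 10 * Dd ^ 3 + M0) * M ^ 2 := by
    calc M0 ≤ (1 + 10 * Dd ^ 3 + M0) * 1 := by linarith
      _ ≤ _ := mul_le_mul_of_nonneg_left hM2 (by linarith)
  have hKge2 : 10 * M ^ 2 * Dd ^ 3 ≤ (1 + 10 * Dd ^ 3 + M0) * M ^ 2 := by
    calc 10 * M ^ 2 * Dd ^ 3 = (10 * Dd ^ 3) * M ^ 2 := by ring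
      _ ≤ _ := mul_le_mul_of_nonneg_right (by linarith) (by positivity)
  have hmU : ∀ x τ : ℝ, ((OV1_e k⁻¹, (x, τ)) : OV3_E) ∈ OV1_U := fun x τ => OV1_mem _ _
  have hcx : ∀ τ : ℝ, ContDiff ℝ ∞ (fun x : ℝ => ((OV1_e k⁻¹, (x, τ)) : OV3_E)) := fun τ =>
    contDiff_const.prodMk (contDiff_id.prodMk contDiff_const)
  have hct : ∀ x : ℝ, ContDiff ℝ ∞ (fun τ : ℝ => ((OV1_e k⁻¹, (x, τ)) : OV3_E)) := fun x =>
    contDiff_const.prodMk (contDiff_const.prodMk contDiff_id)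
  have hsx : ∀ G : OV3_E → ℝ, ContDiffOn ℝ ∞ G OV1_U →
      ContDiff ℝ 2 (fun x : ℝ => G (OV1_e k⁻¹, (x, τ))) := by
    intro G hG
    have : ContDiff ℝ ∞ (fun x : ℝ => G (OV1_e k⁻¹, (x, τ))) := by
      rw [← contDiffOn_univ]
      exact hG.comp (hcx τ).contDiffOn fun x _ => hmU x τ
    exact this.of_le OAM_two
  have hst : ∀ G : OV3_E → ℝ, ContDiffOn ℝ ∞ G OV1_U →
      ContDiff ℝ 2 (fun τ : ℝ => G (OV1_e k⁻¹, (x, τ))) := by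
    intro G hG
    have : ContDiff ℝ ∞ (fun τ : ℝ => G (OV1_e k⁻¹, (x, τ))) := by
      rw [← contDiffOn_univ]
      exact hG.comp (hct x).contDiffOn fun τ _ => hmU x τ
    exact this.of_le OAM_two
  have hβ2 : ContDiff ℝ 2 β := hβ.sb.1.of_le OAM_two
  have hα2 : ContDiff ℝ 2 α := hα.sb.1.of_le OAM_two
  have hmK : ((OV1_e k⁻¹, (x, τ)) : OV3_E) ∈ KK := by
    obtain ⟨i1, i2, i3, i4⟩ := OV3_inv k
    rw [hKK]
    refine ⟨⟨⟨?_, ?_, ?_, ?_⟩, abs_le.1 hx, abs_le.1 hτ⟩, OV1_det k⁻¹⟩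
    · show (k⁻¹ : SL(2, ℝ)) 0 0 ∈ Icc (-3 : ℝ) 3
      rw [i1]
      exact abs_le.1 (hk 1 1)
    · show (k⁻¹ : SL(2, ℝ)) 0 1 ∈ Icc (-3 : ℝ) 3
      rw [i2]
      exact abs_le.1 (by rw [abs_neg]; exact hk 0 1)
    · show (k⁻¹ : SL(2, ℝ)) 1 0 ∈ Icc (-3 : ℝ) 3
      rw [i3]
      exact abs_le.1 (by rw [abs_neg]; exact hk 1 0)
    · show (k⁻¹ : SL(2, ℝ)) 1 1 ∈ Icc (-3 : ℝ) 3
      rw [i4]
      exact abs_le.1 (hk 0 0)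
  have hbd : ∀ j ≤ 2, ∀ y, |iteratedDeriv j β y| ≤ M ∧ |iteratedDeriv j α y| ≤ M :=
    fun j hj y => ⟨hβ.bd j hj y, hα.bd j hj y⟩
  -- direction x
  have hX : ∀ j ≤ 2, ‖iteratedDeriv j (fun x => amk (pc β α) k x τ) x‖ ≤
      (1 + 10 * Dd ^ 3 + M0) * M ^ 2 := by
    intro j hj
    have e1 : (fun x => amk (pc β α) k x τ) = fun x => (((fun x => β (OAM_X (OV1_e k⁻¹, (x, τ))) *
        α (OAM_Y (OV1_e k⁻¹, (x, τ))) * OAM_P (OV1_e k⁻¹, (x, τ))) x : ℝ) : ℂ) := by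
      funext x
      exact OAM_am β α k x τ
    have hF : ContDiff ℝ 2 (fun x => β (OAM_X (OV1_e k⁻¹, (x, τ))) *
        α (OAM_Y (OV1_e k⁻¹, (x, τ))) * OAM_P (OV1_e k⁻¹, (x, τ))) :=
      ((hβ2.comp (hsx _ OAM_Xs)).mul (hα2.comp (hsx _ OAM_Ys))).mul (hsx _ OAM_Ps)
    rw [e1, OAM_real _ hF j hj]
    refine (hOCH β α (fun x => OAM_X (OV1_e k⁻¹, (x, τ))) (fun x => OAM_Y (OV1_e k⁻¹, (x, τ)))
      (fun x => OAM_P (OV1_e k⁻¹, (x, τ))) M Dd x hβ2 hα2 (hsx _ OAM_Xs) (hsx _ OAM_Ys)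
      (hsx _ OAM_Ps) hD1 hbd ?_ ?_ j hj).trans hKge2
    · intro j _ hj
      have q1 := ba1 j hj _ (OV3_lx (OV1_e k⁻¹) τ) (fun x => hmU x τ) x hmK
      have q2 := ba2 j hj _ (OV3_lx (OV1_e k⁻¹) τ) (fun x => hmU x τ) x hmK
      rw [Real.norm_eq_abs] at q1 q2
      exact ⟨q1.trans (by rw [hDd]; linarith), q2.trans (by rw [hDd]; linarith)⟩
    · intro j hj
      have q1 := ba3 j hj _ (OV3_lx (OV1_e k⁻¹) τ) (fun x => hmU x τ) x hmK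
      rw [Real.norm_eq_abs] at q1
      exact q1.trans (by rw [hDd]; linarith)
  -- direction τ
  have hT : ∀ j ≤ 2, ‖iteratedDeriv j (fun τ => amk (pc β α) k x τ) τ‖ ≤
      (1 + 10 * Dd ^ 3 + M0) * M ^ 2 := by
    intro j hj
    have e1 : (fun τ => amk (pc β α) k x τ) = fun τ => (((fun τ => β (OAM_X (OV1_e k⁻¹, (x, τ))) *
        α (OAM_Y (OV1_e k⁻¹, (x, τ))) * OAM_P (OV1_e k⁻¹, (x, τ))) τ : ℝ) : ℂ) := by
      funext τ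
      exact OAM_am β α k x τ
    have hF : ContDiff ℝ 2 (fun τ => β (OAM_X (OV1_e k⁻¹, (x, τ))) *
        α (OAM_Y (OV1_e k⁻¹, (x, τ))) * OAM_P (OV1_e k⁻¹, (x, τ))) :=
      ((hβ2.comp (hst _ OAM_Xs)).mul (hα2.comp (hst _ OAM_Ys))).mul (hst _ OAM_Ps)
    rw [e1, OAM_real _ hF j hj]
    refine (hOCH β α (fun τ => OAM_X (OV1_e k⁻¹, (x, τ))) (fun τ => OAM_Y (OV1_e k⁻¹, (x, τ)))
      (fun τ => OAM_P (OV1_e k⁻¹, (x, τ))) M Dd τ hβ2 hα2 (hst _ OAM_Xs) (hst _ OAM_Ys)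
      (hst _ OAM_Ps) hD1 hbd ?_ ?_ j hj).trans hKge2
    · intro j _ hj
      have q1 := bb1 j hj _ (OV3_lt (OV1_e k⁻¹) x) (fun τ => hmU x τ) τ hmK
      have q2 := bb2 j hj _ (OV3_lt (OV1_e k⁻¹) x) (fun τ => hmU x τ) τ hmK
      rw [Real.norm_eq_abs] at q1 q2
      exact ⟨q1.trans (by rw [hDd]; linarith), q2.trans (by rw [hDd]; linarith)⟩
    · intro j hj
      have q1 := bb3 j hj _ (OV3_lt (OV1_e k⁻¹) x) (fun τ => hmU x τ) τ hmK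
      rw [Real.norm_eq_abs] at q1
      exact q1.trans (by rw [hDd]; linarith)
  refine ⟨h5, h6, ?_, ?_, ?_, h7, h8⟩
  · have := hX 0 (by norm_num)
    rw [iteratedDeriv_zero] at this
    exact this
  · intro j _ hj
    exact ⟨hX j hj, hT j hj⟩
  · intro j hj1 hj
    obtain ⟨r1, r2⟩ := g5 j hj1 hj
    exact ⟨r1.trans (mul_le_mul_of_nonneg_right hKge (abs_nonneg _)), r2.trans hKge⟩

end

end Pool.Agent.T1
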