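import Pool.Agent.helper46.T1.SpecP

set_option autoImplicit false

/-!
# MP_07c750, project T1, row t1:PDA: a dichotomy makes the symbol invariant
-/

open scoped MatrixGroups ContDiff Topology UpperHalfPlane ComplexConjugate
open UpperHalfPlane MeasureTheory Filter Set

namespace Pool.Agent.TP

open Pool.Agent.RS Pool.Agent.MS

section

variable {Ω : Type} [MeasurableSpace Ω]

lemma PDA_ii (k : ℝ → Ω → ℝ) (hk : Measurable (Function.uncurry k))
    (hb : ∀ t x, 0 ≤ k t x ∧ k t x ≤ 1) (x : Ω) (a b : ℝ) :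
    IntervalIntegrable (fun s => k s x) volume a b := by
  have h1 : Measurable (fun s => k s x) := hk.comp (measurable_id.prodMk measurable_const)
  rw [intervalIntegrable_iff]
  haveI : IsFiniteMeasure (volume.restrict (uIoc a b)) :=
    ⟨by rw [Measure.restrict_apply_univ, uIoc]; exact measure_Ioc_lt_top⟩
  refine Integrable.of_bound (C := 1) h1.aestronglyMeasurable (ae_of_all _ fun s => ?_)
  rw [Real.norm_eq_abs, abs_of_nonneg (hb s x).1]
  exact (hb s x).2

lemma PDA_bd (k : ℝ → Ω → ℝ) (hk : Measurable (Function.uncurry k))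
    (hb : ∀ t x, 0 ≤ k t x ∧ k t x ≤ 1) (x : Ω) (a b : ℝ) (hab : a ≤ b) :
    0 ≤ ∫ s in a..b, k s x ∧ ∫ s in a..b, k s x ≤ b - a := by
  constructor
  · exact intervalIntegral.integral_nonneg_of_forall hab fun s => (hb s x).1
  · have h1 : ∫ s in a..b, k s x ≤ ∫ _ in a..b, (1 : ℝ) :=
      intervalIntegral.integral_mono_on hab (PDA_ii k hk hb x a b) intervalIntegrable_const
        fun s _ => (hb s x).2
    simpa using h1

omit [MeasurableSpace Ω] in
lemma PDA_aw (k : ℝ → Ω → ℝ) (W t : ℝ) (x : Ω) :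
    aw k W t x = (∫ s in t..(t + W), k s x) / W := by
  unfold aw
  have h1 := intervalIntegral.integral_comp_add_left (a := 0) (b := W) (fun s => k s x) t
  rw [add_zero] at h1
  rw [h1]

lemma PDA_rg (k : ℝ → Ω → ℝ) (hk : Measurable (Function.uncurry k))
    (hb : ∀ t x, 0 ≤ k t x ∧ k t x ≤ 1) (W : ℝ) (hW : 0 < W) (t : ℝ) (x : Ω) :
    0 ≤ aw k W t x ∧ aw k W t x ≤ 1 := by
  rw [PDA_aw]
  obtain ⟨h1, h2⟩ := PDA_bd k hk hb x t (t + W) (by linarith)
  constructor
  · exact div_nonneg h1 hW.le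
  · rw [div_le_one hW]
    linarith

lemma PDA_cl (k : ℝ → Ω → ℝ) (hk : Measurable (Function.uncurry k))
    (hb : ∀ t x, 0 ≤ k t x ∧ k t x ≤ 1) (W : ℝ) (hW : 0 < W) (t t' : ℝ) (x : Ω) (h : t ≤ t')
    (h' : t' ≤ t + W / 2) : |aw k W t x - aw k W t' x| ≤ 1 / 2 := by
  have e1 : (∫ s in t..(t + W), k s x) - (∫ s in t'..(t' + W), k s x) =
      (∫ s in t..t', k s x) - (∫ s in (t + W)..(t' + W), k s x) := by
    have a1 := intervalIntegral.integral_add_adjacent_intervals (PDA_ii k hk hb x t t')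
      (PDA_ii k hk hb x t' (t' + W))
    have a2 := intervalIntegral.integral_add_adjacent_intervals (PDA_ii k hk hb x t (t + W))
      (PDA_ii k hk hb x (t + W) (t' + W))
    linarith
  obtain ⟨b1, b2⟩ := PDA_bd k hk hb x t t' h
  obtain ⟨b3, b4⟩ := PDA_bd k hk hb x (t + W) (t' + W) (by linarith)
  rw [PDA_aw, PDA_aw, ← sub_div, e1, abs_div, abs_of_pos hW, div_le_iff₀ hW, abs_le]
  constructor <;> linarith

lemma PDA_1 (χ ζ : ℝ → ℝ) (hχ : ∀ x, 0 ≤ χ x ∧ χ x ≤ 1) (hζ : ∀ x, 0 ≤ ζ x ∧ ζ x ≤ 1)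
    (hC : CH χ) (hZ : ZE ζ) (a b : ℝ) (h : |a - b| ≤ 1 / 2) :
    |χ a - χ b| ≤ ζ a + ζ b := by
  obtain ⟨c1, c2⟩ := hC
  obtain ⟨z1, -⟩ := hZ
  obtain ⟨h1, h2⟩ := abs_le.1 h
  have hle : |χ a - χ b| ≤ 1 := by
    rw [abs_le]
    constructor <;> linarith [(hχ a).1, (hχ a).2, (hχ b).1, (hχ b).2]
  by_cases ha : 1 / 20 ≤ a ∧ a ≤ 97 / 100
  · rw [z1 a ha.1 ha.2]
    linarith [(hζ b).1]
  by_cases hb : 1 / 20 ≤ b ∧ b ≤ 97 / 100
  · rw [z1 b hb.1 hb.2]
    linarith [(hζ a).1]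
  have key : χ a = χ b := by
    rcases lt_or_ge a (1 / 20) with ha1 | ha1
    · rcases lt_or_ge b (1 / 20) with hb1 | hb1
      · rw [c1 a ha1.le, c1 b hb1.le]
      · exfalso
        apply hb
        exact ⟨hb1, by linarith⟩
    · have ha2 : 97 / 100 < a := by
        by_contra hh
        exact ha ⟨ha1, not_lt.1 hh⟩
      rcases lt_or_ge b (1 / 2) with hb1 | hb1
      · exfalso
        apply hb
        exact ⟨by linarith, by linarith⟩
      · rw [c2 a (by linarith), c2 b hb1]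
  rw [key, sub_self, abs_zero]
  linarith [(hζ a).1, (hζ b).1]

lemma PDA_meas (k : ℝ → Ω → ℝ) (hk : Measurable (Function.uncurry k)) (W : ℝ) (hW : 0 < W)
    (t : ℝ) : Measurable (aw k W t) := by
  have e1 : aw k W t = fun x => (∫ s, k (t + s) x ∂(volume.restrict (Ioc 0 W))) / W := by
    funext x
    unfold aw
    rw [intervalIntegral.integral_of_le hW.le]
  rw [e1]
  have h1 : StronglyMeasurable (Function.uncurry (fun (x : Ω) (s : ℝ) => k (t + s) x)) := by
    have h2 : Measurable (fun q : Ω × ℝ => ((t + q.2, q.1) : ℝ × Ω)) :=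
      (measurable_const.add measurable_snd).prodMk measurable_fst
    exact (hk.comp h2).stronglyMeasurable
  exact (h1.integral_prod_right (ν := volume.restrict (Ioc 0 W))).measurable.div_const W

lemma PDA_2 (P : Measure Ω) (k : ℝ → Ω → ℝ) (χ ζ : ℝ → ℝ) (p q W c : ℝ) (N : ℕ)
    [IsFiniteMeasure P] (hk : Measurable (Function.uncurry k)) (hb : ∀ t x, 0 ≤ k t x ∧ k t x ≤ 1)
    (hW : 0 < W) (hN : 2 * (q - p) ≤ N * W) (mχ : Measurable χ) (mζ : Measurable ζ)
    (hχ : ∀ x, 0 ≤ χ x ∧ χ x ≤ 1) (hζ : ∀ x, 0 ≤ ζ x ∧ ζ x ≤ 1) (hC : CH χ) (hZ : ZE ζ)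
    (hc : ∀ t, p ≤ t → t + W ≤ q → ∫ x, ζ (aw k W t x) ∂P ≤ c) (t t' : ℝ) (h : t ≤ t')
    (h1 : p ≤ t) (h2 : t' + W ≤ q) :
    ∫ x, |χ (aw k W t x) - χ (aw k W t' x)| ∂P ≤ 2 * N * c := by
  have hN0 : (0 : ℝ) < N := by
    have : 0 < (N : ℝ) * W := by linarith
    exact pos_of_mul_pos_left this hW.le
  obtain ⟨d, hd⟩ : ∃ d : ℝ, d = (t' - t) / N := ⟨_, rfl⟩
  have hd0 : 0 ≤ d := by
    rw [hd]
    exact div_nonneg (by linarith) hN0.le
  have hd1 : d ≤ W / 2 := by
    rw [hd, div_le_iff₀ hN0]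
    linarith
  have hNd : N * d = t' - t := by
    rw [hd]
    field_simp
  obtain ⟨u, hu⟩ : ∃ u : ℕ → ℝ, u = fun i : ℕ => t + i * d := ⟨_, rfl⟩
  have hu0 : u 0 = t := by rw [hu]; simp
  have huN : u N = t' := by
    rw [hu]
    show t + N * d = t'
    rw [hNd]
    ring
  have hint : ∀ s, Integrable (fun x => ζ (aw k W s x)) P := by
    intro s
    refine Integrable.of_bound (C := 1)
      (mζ.comp (PDA_meas k hk W hW s)).aestronglyMeasurable (ae_of_all _ fun x => ?_)
    rw [Real.norm_eq_abs, abs_of_nonneg (hζ _).1]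
    exact (hζ _).2
  have hadd : ∀ i : ℕ, Integrable (fun x => ζ (aw k W (u i) x) + ζ (aw k W (u (i + 1)) x)) P :=
    fun i => (hint _).add (hint _)
  have hpt : ∀ x, |χ (aw k W t x) - χ (aw k W t' x)| ≤
      ∑ i ∈ Finset.range N, (ζ (aw k W (u i) x) + ζ (aw k W (u (i + 1)) x)) := by
    intro x
    have hstep : ∀ n : ℕ, |χ (aw k W (u 0) x) - χ (aw k W (u n) x)| ≤
        ∑ i ∈ Finset.range n, (ζ (aw k W (u i) x) + ζ (aw k W (u (i + 1)) x)) := by
      intro n
      induction n with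
      | zero => simp
      | succ n ih =>
        rw [Finset.sum_range_succ]
        have h3 : |aw k W (u n) x - aw k W (u (n + 1)) x| ≤ 1 / 2 := by
          apply PDA_cl k hk hb W hW
          · rw [hu]
            show t + (n : ℝ) * d ≤ t + ((n + 1 : ℕ) : ℝ) * d
            push_cast
            linarith
          · rw [hu]
            show t + ((n + 1 : ℕ) : ℝ) * d ≤ t + (n : ℝ) * d + W / 2
            push_cast
            linarith
        have h4 := PDA_1 χ ζ hχ hζ hC hZ _ _ h3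
        have h5 := abs_sub_le (χ (aw k W (u 0) x)) (χ (aw k W (u n) x))
          (χ (aw k W (u (n + 1)) x))
        linarith
    have := hstep N
    rwa [hu0, huN] at this
  have hm : ∫ x, |χ (aw k W t x) - χ (aw k W t' x)| ∂P ≤
      ∫ x, ∑ i ∈ Finset.range N, (ζ (aw k W (u i) x) + ζ (aw k W (u (i + 1)) x)) ∂P := by
    refine integral_mono_of_nonneg (ae_of_all _ fun x => abs_nonneg _) ?_ (ae_of_all _ hpt)
    exact integrable_finsetSum _ fun i _ => hadd i
  refine hm.trans ?_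
  rw [integral_finsetSum _ fun i _ => hadd i]
  have hle : ∀ i : ℕ, i ≤ N → ∫ x, ζ (aw k W (u i) x) ∂P ≤ c := by
    intro i hi
    have hi' : (i : ℝ) ≤ N := by exact_mod_cast hi
    have h6 : (i : ℝ) * d ≤ N * d := mul_le_mul_of_nonneg_right hi' hd0
    have h7 : 0 ≤ (i : ℝ) * d := by positivity
    apply hc
    · rw [hu]
      show p ≤ t + (i : ℝ) * d
      linarith
    · rw [hu]
      show t + (i : ℝ) * d + W ≤ q
      linarith
  calc ∑ i ∈ Finset.range N, ∫ x, (ζ (aw k W (u i) x) + ζ (aw k W (u (i + 1)) x)) ∂P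
      ≤ ∑ i ∈ Finset.range N, 2 * c := by
        refine Finset.sum_le_sum fun i hi => ?_
        rw [Finset.mem_range] at hi
        rw [integral_add (hint _) (hint _)]
        have h8 := hle i (by omega)
        have h9 := hle (i + 1) (by omega)
        linarith
    _ = 2 * N * c := by
        rw [Finset.sum_const, Finset.card_range, nsmul_eq_mul]
        ring

end

theorem PDA_proof : PDA_stmt := by
  intro Ω _ P k χ ζ p q W c N hP hk hb hW hN mχ mζ hχ hζ hC hZ hc
  haveI := hP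
  refine ⟨?_, ?_, ?_⟩
  · intro t t' x h h'
    exact PDA_1 χ ζ hχ hζ hC hZ _ _ (PDA_cl k hk hb W hW t t' x h h')
  · intro t t' h1 h2 h3 h4
    rcases le_total t t' with h | h
    · exact PDA_2 P k χ ζ p q W c N hk hb hW hN mχ mζ hχ hζ hC hZ hc t t' h h1 h4
    · have := PDA_2 P k χ ζ p q W c N hk hb hW hN mχ mζ hχ hζ hC hZ hc t' t h h3 h2
      simpa only [abs_sub_comm] using this
  · intro t x
    obtain ⟨h0, h1⟩ := PDA_rg k hk hb W hW t x
    generalize aw k W t x = A at h0 h1 ⊢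
    obtain ⟨c1, c2⟩ := hC
    obtain ⟨z1, -⟩ := hZ
    have g1 := hχ A
    have g2 := hζ A
    rcases le_total A (1 / 20) with hA | hA
    · rw [c1 A hA]
      constructor <;> linarith
    · rcases le_total A (97 / 100) with hB | hB
      · rw [z1 A hA hB]
        constructor
        · nlinarith [g1.1, g1.2]
        · nlinarith [sq_nonneg (χ A)]
      · rw [c2 A (by linarith)]
        constructor <;> linarith

end Pool.Agent.TP
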